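import Pool.Agent.Lib_helper15.Bishop.Group

/-!
# Every Bishop operator has a nontrivial hyperinvariant subspace
-/

set_option autoImplicit false

namespace Pool.Agent.Results.MP_5ac32f_an.BishopOperators

open MeasureTheory
open scoped ENNReal

/-- `T` has a closed subspace, other than `0` and the whole space, which is invariant under every
bounded operator commuting with `T`. -/
def HasHyperinvariantSubspace {E : Type*} [NormedAddCommGroup E] [NormedSpace ℂ E]
    (T : E →L[ℂ] E) : Prop :=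
  ∃ M : Submodule ℂ E, IsClosed (M : Set E) ∧ M ≠ ⊥ ∧ M ≠ ⊤ ∧
    ∀ A : E →L[ℂ] E, A * T = T * A → ∀ x ∈ M, A x ∈ M

/-- Lebesgue measure on `[0,1)`. -/
noncomputable def unitMeasure : Measure ℝ := (volume : Measure ℝ).restrict (Set.Ico 0 1)

/-- The complex space `L^p[0,1)`. -/
abbrev LpUnit (p : ℝ≥0∞) : Type := Lp ℂ p unitMeasure

/-- `T` is the Bishop operator `T f (x) = x f ({x + α})` on `L^p[0,1)`. -/
def IsBishopOperator (α : ℝ) (p : ℝ≥0∞) [Fact (1 ≤ p)] (T : LpUnit p →L[ℂ] LpUnit p) : Prop :=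
  ∀ f : LpUnit p,
    (T f : ℝ → ℂ) =ᵐ[unitMeasure] fun x => (x : ℂ) * (f : ℝ → ℂ) (Int.fract (x + α))

/-- Every Bishop operator `T f (x) = x f ({x + α})` on `L^p[0,1)`, `α` any real number,
`1 ≤ p ≤ ∞`, has a nontrivial hyperinvariant subspace. -/
theorem result : ∀ (α : ℝ) (p : ℝ≥0∞) [Fact (1 ≤ p)] (T : LpUnit p →L[ℂ] LpUnit p),
    IsBishopOperator α p T → HasHyperinvariantSubspace T := by
  intro α p _ T hT
  exact Pool.Agent.Bishop.modX0 p α (fun T' hT' =>
    Pool.Agent.Bishop.bishop_circle Pool.Agent.Bishop.modG_all Pool.Agent.Bishop.modR_all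
      Pool.Agent.Bishop.modW Pool.Agent.Bishop.modQ α p T' hT') T hT

end Pool.Agent.Results.MP_5ac32f_an.BishopOperators
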