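import Pool.Agent.HSP.Hilbert

set_option autoImplicit false

/-!
# MP_5ac32f_an: hyperinvariant subspaces on Hilbert spaces

On every separable infinite-dimensional complex Hilbert space there is a quasinilpotent bounded
operator `T ≠ 0` without nontrivial hyperinvariant subspaces: the only closed subspaces which are
invariant under all bounded operators commuting with `T` are `0` and the whole space.
-/

namespace Pool.Agent.Results.MP_5ac32f_an.HilbertSpace

/-- The hyperinvariant subspace problem has a negative answer on Hilbert spaces. -/
theorem result (H : Type*) [NormedAddCommGroup H] [InnerProductSpace ℂ H] [CompleteSpace H]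
    [TopologicalSpace.SeparableSpace H] (hH : ¬ FiniteDimensional ℂ H) :
    ∃ T : H →L[ℂ] H, T ≠ 0 ∧ spectrum ℂ T = {0} ∧
      ∀ M : Submodule ℂ H, IsClosed (M : Set H) →
        (∀ S : H →L[ℂ] H, S * T = T * S → ∀ x ∈ M, S x ∈ M) → M = ⊥ ∨ M = ⊤ :=
  Pool.Agent.HSP.hilbert H hH

end Pool.Agent.Results.MP_5ac32f_an.HilbertSpace
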