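import Pool.Agent.Lib_helper15.C10.All

/-!
# Power bounded operators outside the class `C_00` have hyperinvariant subspaces
-/

set_option autoImplicit false

namespace Pool.Agent.Results.MP_5ac32f_an.OutsideC00

open Filter
open scoped Topology

/-- `T` has a closed subspace, other than `0` and the whole space, which is invariant under every
bounded operator commuting with `T`. -/
def HasHyperinvariantSubspace {E : Type*} [NormedAddCommGroup E] [NormedSpace ℂ E]
    (T : E →L[ℂ] E) : Prop :=
  ∃ M : Submodule ℂ E, IsClosed (M : Set E) ∧ M ≠ ⊥ ∧ M ≠ ⊤ ∧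
    ∀ A : E →L[ℂ] E, A * T = T * A → ∀ x ∈ M, A x ∈ M

/-- `T` is of class `C_00`: `T ^ n x → 0` for all `x`, and `φ ∘ T ^ n → 0` in norm for all `φ` in
the dual space. -/
def IsC00 {E : Type*} [NormedAddCommGroup E] [NormedSpace ℂ E] (T : E →L[ℂ] E) : Prop :=
  (∀ x : E, Tendsto (fun n : ℕ => (T ^ n) x) atTop (𝓝 0)) ∧
    ∀ φ : E →L[ℂ] ℂ, Tendsto (fun n : ℕ => φ.comp (T ^ n)) atTop (𝓝 0)

/-- Every power bounded operator on a separable Hilbert space which is not a scalar multiple of the
identity and not of class `C_00` has a nontrivial hyperinvariant subspace. -/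
theorem result.{u} : ∀ (H : Type u) [NormedAddCommGroup H] [InnerProductSpace ℂ H]
    [CompleteSpace H] [TopologicalSpace.SeparableSpace H] (T : H →L[ℂ] H),
    (∃ M : ℝ, ∀ n : ℕ, ‖T ^ n‖ ≤ M) →
    (∀ c : ℂ, T ≠ c • ContinuousLinearMap.id ℂ H) → ¬ IsC00 T → HasHyperinvariantSubspace T := by
  intro H _ _ _ _ T ⟨M, hM⟩ hne h00
  exact Pool.Agent.C10.final_powerBounded T M hM hne h00

end Pool.Agent.Results.MP_5ac32f_an.OutsideC00
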