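import Pool.Agent.Lib_helper15.RankOne.FinalScalar

/-!
# Rank one perturbations of scalar type operators have hyperinvariant subspaces
-/

set_option autoImplicit false

namespace Pool.Agent.Results.MP_5ac32f_an.RankOnePerturbation

/-- A countably additive spectral measure on the Borel sets of `ℂ`, with values in the bounded
operators on a Banach space `E`: `P(ℂ) = 1`, `P(A ∩ B) = P(A) P(B)`, and `A ↦ ℓ (P(A) x)` is
countably additive for all `x` in `E` and all `ℓ` in the dual of `E`. -/
structure IsSpectralMeasure {E : Type*} [NormedAddCommGroup E] [NormedSpace ℂ E]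
    (P : Set ℂ → (E →L[ℂ] E)) : Prop where
  univ : P Set.univ = 1
  inter : ∀ A B : Set ℂ, MeasurableSet A → MeasurableSet B → P (A ∩ B) = P A * P B
  sigma : ∀ A : ℕ → Set ℂ, (∀ n, MeasurableSet (A n)) → Pairwise (Function.onFun Disjoint A) →
    ∀ (x : E) (ℓ : StrongDual ℂ E), HasSum (fun n => ℓ (P (A n) x)) (ℓ (P (⋃ n, A n) x))

/-- `N` is of scalar type: it lies in the norm closed linear span of the values of a countably
additive spectral measure, that is, `N = ∫ φ dP` with `φ` bounded. -/
def IsScalarType {E : Type*} [NormedAddCommGroup E] [NormedSpace ℂ E] (N : E →L[ℂ] E) : Prop :=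
  ∃ P : Set ℂ → (E →L[ℂ] E), IsSpectralMeasure P ∧
    N ∈ closure (Submodule.span ℂ {S : E →L[ℂ] E | ∃ A : Set ℂ, MeasurableSet A ∧ S = P A} :
      Set (E →L[ℂ] E))

/-- Every rank one perturbation `T = N + v(·) u` of a scalar type operator `N` on a complex Banach
space has a nontrivial hyperinvariant subspace, unless `T` is a scalar multiple of the identity. -/
theorem result.{u} :
    ∀ (E : Type u) [NormedAddCommGroup E] [NormedSpace ℂ E] [CompleteSpace E]
      (N : E →L[ℂ] E), IsScalarType N → ∀ (u : E) (v : StrongDual ℂ E) (T : E →L[ℂ] E),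
      (∀ x : E, T x = N x + v x • u) → (∀ a : ℂ, T ≠ a • ContinuousLinearMap.id ℂ E) →
      ∃ M : Submodule ℂ E, IsClosed (M : Set E) ∧ M ≠ ⊥ ∧ M ≠ ⊤ ∧
        ∀ A : E →L[ℂ] E, A * T = T * A → ∀ x ∈ M, A x ∈ M := by
  intro E _ _ _ N hN u v T hT hTs
  have e : T = N + v.smulRight u := by
    ext x
    rw [hT x]
    simp
  subst e
  obtain ⟨P, hP, hNP⟩ := hN
  exact Pool.Agent.RankOne.scalar_final E N ⟨P, ⟨hP.univ, hP.inter, hP.sigma⟩, hNP⟩ u v hTs

end Pool.Agent.Results.MP_5ac32f_an.RankOnePerturbation
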